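import Mathlib
import Pool.Agent.TH339.MP.U3
import Pool.Agent.TH345.ET.W

/-! Families of Euler products on the edge: boundary values, means, transcendence. -/

set_option autoImplicit false

open Complex MeasureTheory Set Filter Topology
open Pool.Agent.TH339.MP (PP FF tm bl ap PS PS_tendsto ae_notMem bl_angle boundary summable_wt norm_tm edge_harnack)
open Pool.Agent.W350.Edge (divSet)

namespace Pool.Agent.Q12.VB

variable {ι : Type*}

/-- the point `w + 1 + iτ` -/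
noncomputable def ept (w τ : ℝ) : ℂ := ((w + 1 : ℝ) : ℂ) + (τ : ℂ) * I

/-- the angle at `w + 1 + iτ` -/
def ang (w τ C : ℝ) : Set ℂ := {s : ℂ | w + 1 < s.re ∧ ‖s - ept w τ‖ ≤ C * (s.re - (w + 1))}

theorem ept_re (w τ : ℝ) : (ept w τ).re = w + 1 := by
  unfold ept
  simp

/-- A family of exponentials of Dirichlet series over the prime powers: `L_j(s) = exp (∑ b_j(p, k) p^{-k(s - w_j)})` for
`Re s > w_j + 1`, with `|b_j(p, k)| ≤ M_j / k`. -/
structure Fam (L : ι → ℂ → ℂ) (w M : ι → ℝ) (b : ι → PP → ℂ) : Prop where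
  hb : ∀ j x, ‖b j x‖ ≤ M j / (x.2 + 1 : ℕ)
  hL : ∀ j, ∀ s : ℂ, w j + 1 < s.re → L j s = cexp (FF (b j) (s - w j))

/-- `∑ z_j b_j` -/
noncomputable def cb (b : ι → PP → ℂ) (T : Finset ι) (z : ι → ℂ) (x : PP) : ℂ := ∑ j ∈ T, z j * b j x

variable {L : ι → ℂ → ℂ} {w M : ι → ℝ} {b : ι → PP → ℂ}

theorem Fam.cb_norm (h : Fam L w M b) (T : Finset ι) (z : ι → ℂ) (x : PP) :
    ‖cb b T z x‖ ≤ (∑ j ∈ T, ‖z j‖ * M j) / (x.2 + 1 : ℕ) := by
  unfold cb
  refine (norm_sum_le _ _).trans ?_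
  rw [Finset.sum_div]
  refine Finset.sum_le_sum fun j _ => ?_
  rw [norm_mul, mul_div_assoc]
  exact mul_le_mul_of_nonneg_left (h.hb j x) (norm_nonneg _)

theorem tm_summable {b : PP → ℂ} {M : ℝ} (hb : ∀ x, ‖b x‖ ≤ M / (x.2 + 1 : ℕ)) {s : ℂ} (hs : 1 < s.re) :
    Summable (tm b s) := by
  refine Summable.of_norm_bounded ((summable_wt hs).mul_left M) fun x => ?_
  rw [norm_tm]
  rw [← mul_div_assoc, mul_comm M, mul_div_assoc, mul_comm]
  exact mul_le_mul_of_nonneg_left (hb x) (Pool.Agent.TH339.MP.wt_nonneg _ x)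

theorem Fam.FF_cb (h : Fam L w M b) (T : Finset ι) (z : ι → ℂ) {s : ℂ} (hs : 1 < s.re) :
    FF (cb b T z) s = ∑ j ∈ T, z j * FF (b j) s := by
  unfold FF
  rw [Finset.sum_congr rfl fun j _ => (tsum_mul_left (a := z j) (f := tm (b j) s)).symm,
    ← Summable.tsum_finsetSum fun j _ => (tm_summable (h.hb j) hs).mul_left (z j)]
  refine tsum_congr fun x => ?_
  unfold tm cb
  rw [Finset.sum_mul]
  exact Finset.sum_congr rfl fun j _ => by ring

theorem Fam.bl_cb (h : Fam L w M b) (T : Finset ι) (z : ι → ℂ) {τ : ℝ} (h1 : ∀ j, τ ∉ divSet (ap (b j)))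
    (h2 : τ ∉ divSet (ap (cb b T z))) : bl (cb b T z) τ = ∑ j ∈ T, z j * bl (b j) τ := by
  have h3 := PS_tendsto (h.cb_norm T z) h2
  have h4 : Tendsto (fun X => ∑ j ∈ T, z j * PS (b j) X τ) atTop (𝓝 (∑ j ∈ T, z j * bl (b j) τ)) :=
    tendsto_finsetSum _ fun j _ => (PS_tendsto (h.hb j) (h1 j)).const_mul (z j)
  refine tendsto_nhds_unique h3 (h4.congr fun X => ?_)
  unfold PS cb
  rw [Finset.sum_congr rfl fun j _ => Finset.mul_sum _ _ _, Finset.sum_comm]
  refine Finset.sum_congr rfl fun x _ => ?_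
  rw [Finset.sum_mul, Finset.sum_mul]
  exact Finset.sum_congr rfl fun j _ => by ring

theorem Fam.exc_dim [Countable ι] (h : Fam L w M b) : dimH (⋃ j, divSet (ap (b j))) = 0 := by
  rw [dimH_iUnion]
  refine le_antisymm (iSup_le fun j => ?_) bot_le
  rw [(boundary (h.hb j)).2.1]

/-- the boundary function -/
noncomputable def lb (b : PP → ℂ) (τ : ℝ) : ℂ := cexp (bl b τ)

theorem lb_ne (b : PP → ℂ) (τ : ℝ) : lb b τ ≠ 0 := Complex.exp_ne_zero _

theorem Fam.angle (h : Fam L w M b) {j : ι} {τ : ℝ} (hτ : τ ∉ divSet (ap (b j))) (C : ℝ) :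
    Tendsto (L j) (𝓝[ang (w j) τ C] (ept (w j) τ)) (𝓝 (lb (b j) τ)) := by
  have h5 := (Complex.continuous_exp.tendsto _).comp (bl_angle (h.hb j) hτ C)
  have h6 : Tendsto (fun s : ℂ => s - ept (w j) τ) (𝓝[ang (w j) τ C] (ept (w j) τ))
      (𝓝[{z : ℂ | 0 < z.re ∧ ‖z‖ ≤ C * z.re}] 0) := by
    rw [tendsto_nhdsWithin_iff]
    constructor
    · have h7 : Tendsto (fun s : ℂ => s - ept (w j) τ) (𝓝 (ept (w j) τ)) (𝓝 (ept (w j) τ - ept (w j) τ)) :=
        (continuous_id.sub continuous_const).tendsto _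
      rw [sub_self] at h7
      exact h7.mono_left nhdsWithin_le_nhds
    · filter_upwards [self_mem_nhdsWithin] with s hs
      have hre : (s - ept (w j) τ).re = s.re - (w j + 1) := by
        rw [Complex.sub_re, ept_re]
      refine ⟨?_, ?_⟩
      · rw [hre]
        linarith [hs.1]
      · rw [hre]
        exact hs.2
  refine (h5.comp h6).congr' ?_
  filter_upwards [self_mem_nhdsWithin] with s hs
  rw [h.hL j s hs.1]
  simp only [Function.comp_apply]
  congr 2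
  unfold ept
  push_cast
  ring

theorem one_lt_re {j : ι} {τ h : ℝ} (hh : 0 < h) : 1 < ((ept (w j) τ + h) - w j).re := by
  rw [Complex.sub_re, Complex.add_re, ept_re, Complex.ofReal_re, Complex.ofReal_re]
  linarith

theorem Fam.pt (h : Fam L w M b) (j : ι) (τ : ℝ) {x : ℝ} (hx : 0 < x) :
    L j (ept (w j) τ + x) = cexp (FF (b j) (((1 + x : ℝ) : ℂ) + τ * I)) := by
  rw [h.hL j _ (by rw [Complex.add_re, ept_re, Complex.ofReal_re]; linarith)]
  congr 2
  unfold ept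
  push_cast
  ring

theorem norm_exp_rpow (z : ℂ) (c : ℝ) : ‖cexp z‖ ^ c = ‖cexp ((c : ℂ) * z)‖ := by
  rw [Complex.norm_exp, Complex.norm_exp, ← Real.exp_mul]
  congr 1
  simp
  ring

/-- real exponents inside -/
theorem Fam.rprod (h : Fam L w M b) (T : Finset ι) (c : ι → ℝ) (τ : ℝ) {x : ℝ} (hx : 0 < x) :
    ∏ j ∈ T, ‖L j (ept (w j) τ + x)‖ ^ c j = ‖cexp (FF (cb b T fun j => (c j : ℂ)) (((1 + x : ℝ) : ℂ) + τ * I))‖ := by
  rw [h.FF_cb _ _ (by simp [hx]), Complex.exp_sum, norm_prod]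
  refine Finset.prod_congr rfl fun j _ => ?_
  rw [h.pt j τ hx, norm_exp_rpow]

/-- real exponents on the edge -/
theorem Fam.rprod_lb (h : Fam L w M b) (T : Finset ι) (c : ι → ℝ) {τ : ℝ}
    (h1 : ∀ j, τ ∉ divSet (ap (b j))) (h2 : τ ∉ divSet (ap (cb b T fun j => (c j : ℂ)))) :
    ∏ j ∈ T, ‖lb (b j) τ‖ ^ c j = ‖cexp (bl (cb b T fun j => (c j : ℂ)) τ)‖ := by
  rw [h.bl_cb _ _ h1 h2, Complex.exp_sum, norm_prod]
  refine Finset.prod_congr rfl fun j _ => ?_
  unfold lb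
  rw [norm_exp_rpow]

/-- **The means over intervals of the edge and the values inside.** -/
theorem Fam.harnack [Countable ι] (hF : Fam L w M b) (T : Finset ι) (c : ι → ℝ)
    (hc : ∑ j ∈ T, |c j| * M j < 1) {h : ℝ} (hh : 0 < h) (hh2 : h ≤ 1 / 2) (t : ℝ) :
    IntegrableOn (fun u => ∏ j ∈ T, ‖lb (b j) u‖ ^ c j) (Set.Icc (t - h / 2) (t + h / 2)) ∧
    (1 - ∑ j ∈ T, |c j| * M j) / 1000 * h * (∏ j ∈ T, ‖L j (ept (w j) t + h)‖ ^ c j) ≤
      ∫ u in (t - h / 2)..(t + h / 2), ∏ j ∈ T, ‖lb (b j) u‖ ^ c j ∧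
    ∫ u in (t - h / 2)..(t + h / 2), ∏ j ∈ T, ‖lb (b j) u‖ ^ c j ≤
      1000 / (1 - ∑ j ∈ T, |c j| * M j) * h * (∏ j ∈ T, ‖L j (ept (w j) t + h)‖ ^ c j) := by
  set B : PP → ℂ := cb b T fun j => (c j : ℂ) with hB
  have hM : ∑ j ∈ T, ‖((c j : ℝ) : ℂ)‖ * M j = ∑ j ∈ T, |c j| * M j := by
    refine Finset.sum_congr rfl fun j _ => ?_
    rw [Complex.norm_real, Real.norm_eq_abs]
  have hbn : ∀ x, ‖B x‖ ≤ (∑ j ∈ T, |c j| * M j) / (x.2 + 1 : ℕ) := fun x => by
    have := hF.cb_norm T (fun j => (c j : ℂ)) x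
    rwa [hM] at this
  obtain ⟨i1, i2, i3⟩ := edge_harnack hbn hh hh2 t 1 (by rw [norm_one, one_mul]; exact hc)
  rw [norm_one, one_mul] at i2 i3
  simp only [one_mul] at i1 i2 i3
  rw [← hF.rprod T c t hh] at i2 i3
  have hae : (fun u => ∏ j ∈ T, ‖lb (b j) u‖ ^ c j) =ᵐ[volume] fun u => ‖cexp (bl B u)‖ := by
    have h1 : ∀ᵐ u : ℝ, ∀ j, u ∉ divSet (ap (b j)) := by
      rw [ae_all_iff]
      exact fun j => ae_notMem (hF.hb j)
    filter_upwards [h1, ae_notMem hbn] with u hu hu2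
    exact hF.rprod_lb T c hu hu2
  have hint : ∫ u in (t - h / 2)..(t + h / 2), ∏ j ∈ T, ‖lb (b j) u‖ ^ c j =
      ∫ u in (t - h / 2)..(t + h / 2), ‖cexp (bl B u)‖ := by
    refine intervalIntegral.integral_congr_ae ?_
    filter_upwards [hae] with u hu _
    exact hu
  rw [hint]
  exact ⟨i1.congr_fun_ae (ae_restrict_of_ae (hae.symm)), i2, i3⟩

/-- two-sided bounds give the same exponent -/
theorem exponent {F G : ℝ → ℝ} {c A m : ℝ} (hc : c ≠ 0) (hF : ∀ h, 0 < h → h ≤ 1 / 2 → 0 < F h)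
    (hG : ∀ h, 0 < h → h ≤ 1 / 2 → A⁻¹ * F h ^ c ≤ G h ∧ G h ≤ A * F h ^ c) (hA : 0 < A) :
    Tendsto (fun h => Real.log (F h) / Real.log h) (𝓝[>] 0) (𝓝 m) ↔
      Tendsto (fun h => Real.log (G h) / (c * Real.log h)) (𝓝[>] 0) (𝓝 m) := by
  have hlog : Tendsto (fun h : ℝ => Real.log h) (𝓝[>] 0) atBot := Real.tendsto_log_nhdsGT_zero
  have hz : Tendsto (fun h : ℝ => (|Real.log A| / |c|) / |Real.log h|) (𝓝[>] 0) (𝓝 0) :=
    Tendsto.div_atTop tendsto_const_nhds (tendsto_abs_atBot_atTop.comp hlog)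
  have hd : Tendsto (fun h => Real.log (G h) / (c * Real.log h) - Real.log (F h) / Real.log h)
      (𝓝[>] 0) (𝓝 0) := by
    refine squeeze_zero_norm' ?_ hz
    have h1 : ∀ᶠ h : ℝ in 𝓝[>] 0, h ≤ 1 / 2 :=
      (eventually_le_nhds (by norm_num : (0 : ℝ) < 1 / 2)).filter_mono nhdsWithin_le_nhds
    filter_upwards [self_mem_nhdsWithin, h1] with h hh hh2
    have hh0 : 0 < h := hh
    have hl : Real.log h ≠ 0 := (Real.log_neg hh0 (by linarith)).ne
    obtain ⟨g1, g2⟩ := hG h hh0 hh2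
    have hF0 := hF h hh0 hh2
    have hFc : 0 < F h ^ c := Real.rpow_pos_of_pos hF0 c
    have hG0 : 0 < G h := lt_of_lt_of_le (by positivity) g1
    have e1 : Real.log (G h) / (c * Real.log h) - Real.log (F h) / Real.log h =
        (Real.log (G h) - c * Real.log (F h)) / (c * Real.log h) := by
      field_simp
    have g3 : Real.log (G h) ≤ Real.log A + c * Real.log (F h) := by
      rw [← Real.log_rpow hF0, ← Real.log_mul hA.ne' hFc.ne']
      exact Real.log_le_log hG0 g2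
    have g4 : -Real.log A + c * Real.log (F h) ≤ Real.log (G h) := by
      rw [← Real.log_rpow hF0, ← Real.log_inv, ← Real.log_mul (inv_ne_zero hA.ne') hFc.ne']
      exact Real.log_le_log (by positivity) g1
    have g5 : |Real.log (G h) - c * Real.log (F h)| ≤ |Real.log A| := by
      rw [abs_le]
      have := le_abs_self (Real.log A)
      constructor <;> linarith
    rw [e1, Real.norm_eq_abs, abs_div, abs_mul, div_div]
    exact div_le_div_of_nonneg_right g5 (by positivity)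
  constructor
  · intro h
    have := h.add hd
    rw [add_zero] at this
    exact this.congr fun x => by ring
  · intro h
    have := h.sub hd
    rw [sub_zero] at this
    exact this.congr fun x => by ring

/-- the order of a product of powers, from the means -/
theorem Fam.order [Countable ι] (hF : Fam L w M b) (T : Finset ι) (c : ι → ℝ)
    (hc : ∑ j ∈ T, |c j| * M j < 1) (t r : ℝ) :
    Tendsto (fun h : ℝ => (∑ j ∈ T, c j * Real.log ‖L j (ept (w j) t + h)‖) / Real.log h) (𝓝[>] 0) (𝓝 r) ↔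
      Tendsto (fun h : ℝ => Real.log ((∫ u in (t - h / 2)..(t + h / 2), ∏ j ∈ T, ‖lb (b j) u‖ ^ c j) / h) /
        Real.log h) (𝓝[>] 0) (𝓝 r) := by
  have hA : 0 < 1 - ∑ j ∈ T, |c j| * M j := by linarith
  have hne : ∀ j h, 0 < h → 0 < ‖L j (ept (w j) t + (h : ℝ))‖ := fun j h hh => by
    rw [hF.pt j t hh]
    exact norm_pos_iff.2 (Complex.exp_ne_zero _)
  have key := exponent (F := fun h => ∏ j ∈ T, ‖L j (ept (w j) t + (h : ℝ))‖ ^ c j)
    (G := fun h => (∫ u in (t - h / 2)..(t + h / 2), ∏ j ∈ T, ‖lb (b j) u‖ ^ c j) / h) (c := 1)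
    (A := 1000 / (1 - ∑ j ∈ T, |c j| * M j)) (m := r) one_ne_zero
    (fun h hh _ => Finset.prod_pos fun j _ => Real.rpow_pos_of_pos (hne j h hh) _) (fun h hh hh2 => by
      obtain ⟨-, i2, i3⟩ := hF.harnack T c hc hh hh2 t
      rw [Real.rpow_one]
      constructor
      · rw [le_div_iff₀ hh, inv_div]
        refine le_trans (le_of_eq ?_) i2
        ring
      · rw [div_le_iff₀ hh]
        refine i3.trans (le_of_eq ?_)
        ring) (by positivity)
  simp only [one_mul] at key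
  rw [← key]
  refine tendsto_congr' ?_
  filter_upwards [self_mem_nhdsWithin] with h hh
  have hh0 : 0 < h := hh
  congr 1
  rw [Real.log_prod (fun j _ => (Real.rpow_pos_of_pos (hne j h hh0) _).ne')]
  refine Finset.sum_congr rfl fun j _ => ?_
  rw [Real.log_rpow (hne j h hh0)]

/-- integer exponents inside -/
theorem Fam.zprod (h : Fam L w M b) (k : ι →₀ ℤ) {s : ℂ} (hs : 1 < s.re) :
    (k.prod fun j e => L j (s + w j) ^ e) = cexp (FF (cb b k.support fun j => (k j : ℂ)) s) := by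
  rw [h.FF_cb _ _ hs, Complex.exp_sum]
  unfold Finsupp.prod
  refine Finset.prod_congr rfl fun j _ => ?_
  show L j (s + w j) ^ k j = _
  rw [h.hL j _ (by rw [Complex.add_re, Complex.ofReal_re]; linarith), add_sub_cancel_right, ← Complex.exp_int_mul]

/-- integer exponents on the edge -/
theorem Fam.zprod_lb (h : Fam L w M b) (k : ι →₀ ℤ) {τ : ℝ} (h1 : ∀ j, τ ∉ divSet (ap (b j)))
    (h2 : τ ∉ divSet (ap (cb b k.support fun j => (k j : ℂ)))) :
    (k.prod fun j e => lb (b j) τ ^ e) = cexp (bl (cb b k.support fun j => (k j : ℂ)) τ) := by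
  rw [h.bl_cb _ _ h1 h2, Complex.exp_sum]
  unfold Finsupp.prod
  refine Finset.prod_congr rfl fun j _ => ?_
  show lb (b j) τ ^ k j = _
  unfold lb
  rw [← Complex.exp_int_mul]

/-- the values at `s` of the functions in `A` which are analytic at `s` -/
def values (A : Set (ℂ → ℂ)) (s : ℂ) : Set ℂ := {z : ℂ | ∃ g ∈ A, AnalyticAt ℂ g s ∧ g s = z}

/-- `f`, a function on the half-plane `Re s > 1`, continues holomorphically to a neighbourhood of `1 + iτ` -/
def Continues (f : ℂ → ℂ) (τ : ℝ) : Prop :=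
  ∃ φ : ℂ → ℂ, AnalyticAt ℂ φ (1 + τ * I) ∧ ∀ᶠ s in 𝓝 (1 + τ * I : ℂ), 1 < s.re → f s = φ s

/-- **Continuation or transcendence, for all integer products.** -/
theorem Fam.transc [Countable ι] (h : Fam L w M b) {A : Set (ℂ → ℂ)} (hA : A.Countable) :
    ∀ᵐ τ : ℝ, ∀ k : ι →₀ ℤ, Continues (fun s => k.prod fun j e => L j (s + w j) ^ e) τ ∨
      Transcendental (IntermediateField.adjoin ℚ (values A (1 + τ * I))) (k.prod fun j e => lb (b j) τ ^ e) := by
  have h1 : ∀ᵐ τ : ℝ, ∀ j, τ ∉ divSet (ap (b j)) := by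
    rw [ae_all_iff]
    exact fun j => ae_notMem (h.hb j)
  have h2 : ∀ᵐ τ : ℝ, ∀ k : ι →₀ ℤ, τ ∉ divSet (ap (cb b k.support fun j => (k j : ℂ))) := by
    rw [ae_all_iff]
    exact fun k => ae_notMem (h.cb_norm _ _)
  have h3 : ∀ᵐ τ : ℝ, ∀ k : ι →₀ ℤ,
      Pool.Agent.TH345.ET.Cont (cb b k.support fun j => (k j : ℂ)) (fun _ => 1) τ ∨
        Transcendental (IntermediateField.adjoin ℚ (Pool.Agent.TH345.ET.vals A (Pool.Agent.TH345.ET.ep τ)))
          (Pool.Agent.TH345.ET.bv (cb b k.support fun j => (k j : ℂ)) (fun _ => 1) τ) := by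
    rw [ae_all_iff]
    exact fun k => Pool.Agent.TH345.ET.ae_transcendental (h.cb_norm _ _) (fun _ => analyticAt_const) hA
  filter_upwards [h1, h2, h3] with τ g1 g2 g3 k
  rcases g3 k with ⟨φ, hφ, hev⟩ | hT
  · left
    refine ⟨φ, hφ, ?_⟩
    filter_upwards [hev] with s hs hs1
    show (k.prod fun j e => L j (s + w j) ^ e) = φ s
    rw [h.zprod k hs1, ← hs hs1, one_mul]
  · right
    rw [h.zprod_lb k g1 (g2 k)]
    unfold Pool.Agent.TH345.ET.bv at hT
    rw [one_mul] at hT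
    exact hT

end Pool.Agent.Q12.VB
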