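import Mathlib
import Pool.Agent.Q12.VB.Gen
import Pool.Agent.Q12.EC.Ell
import Pool.Agent.H341R2.NF.ECCount

/-! Elliptic curves over number fields as a family. -/

set_option autoImplicit false

open Complex MeasureTheory Set Filter Topology NumberField IsDedekindDomain
open Pool.Agent.TH339.MP (PP FF bb norm_bb hasProd_L nm two_le_nm)
open Pool.Agent.Q12.EC (rt rt_norm rt_prod rt_real rt_sum rt_conj)

namespace Pool.Agent.Q12.VB

/-- An elliptic curve `y² = x³ + a x + b`, `a, b ∈ 𝓞_K`, over a number field `K`, and a function `c` on the primes of `K`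
with `|c| ≤ 1`, for example `c = 1` or a character. -/
structure EDatum where
  K : Type
  [field : Field K]
  [numberField : NumberField K]
  a : 𝓞 K
  b : 𝓞 K
  c : HeightOneSpectrum (𝓞 K) → ℂ
  norm_c : ∀ v, ‖c v‖ ≤ 1

attribute [instance] EDatum.field EDatum.numberField

/-- the affine points of `y² = x³ + a x + b` -/
def Pts {k : Type} [CommRing k] (a b : k) : Type := {P : k × k // P.2 ^ 2 = P.1 ^ 3 + a * P.1 + b}

namespace EDatum

variable (D : EDatum)

/-- the prime `v` does not divide `6 (4 a³ + 27 b²)` -/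
def Good (v : HeightOneSpectrum (𝓞 D.K)) : Prop := 6 * (4 * D.a ^ 3 + 27 * D.b ^ 2) ∉ v.asIdeal

/-- the residue field of `v` -/
def Res (v : HeightOneSpectrum (𝓞 D.K)) : Type := 𝓞 D.K ⧸ v.asIdeal

noncomputable instance (v : HeightOneSpectrum (𝓞 D.K)) : CommRing (D.Res v) := Ideal.Quotient.commRing v.asIdeal

/-- reduction modulo `v` -/
noncomputable def red (v : HeightOneSpectrum (𝓞 D.K)) (x : 𝓞 D.K) : D.Res v := Ideal.Quotient.mk v.asIdeal x

/-- `a_v`: the norm of `v` minus the number of affine points of `y² = x³ + a x + b` modulo `v` -/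
noncomputable def trace (v : HeightOneSpectrum (𝓞 D.K)) : ℤ :=
  (Ideal.absNorm v.asIdeal : ℤ) - Nat.card (Pts (D.red v D.a) (D.red v D.b))

open Classical in
/-- `L(E ⊗ c, s)`: the product over the primes `v` of `K` not dividing `6 (4 a³ + 27 b²)` of the Euler factors
`(1 - c(v) a_v Nv^{-s} + c(v)² Nv^{1-2s})⁻¹`. -/
noncomputable def LFun (s : ℂ) : ℂ :=
  ∏' v : HeightOneSpectrum (𝓞 D.K), if D.Good v then
    (1 - D.c v * D.trace v * (Ideal.absNorm v.asIdeal : ℂ) ^ (-s) +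
      D.c v ^ 2 * (Ideal.absNorm v.asIdeal : ℂ) ^ (1 - 2 * s))⁻¹ else 1

/-- Hasse's bound over a finite field -/
theorem hasseK {k : Type} [Field k] [Fintype k] {A B : k}
    (h6D : (6 : k) * (4 * A ^ 3 + 27 * B ^ 2) ≠ 0) :
    |(Fintype.card k : ℝ) - Nat.card {P : k × k // P.2 ^ 2 = P.1 ^ 3 + A * P.1 + B}| ≤
      2 * √(Fintype.card k) := by
  classical
  have h6 : (6 : k) ≠ 0 := left_ne_zero_of_mul h6D
  have hD : (4 * A ^ 3 + 27 * B ^ 2 : k) ≠ 0 := right_ne_zero_of_mul h6D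
  have h2 : (2 : k) ≠ 0 := by
    intro h; apply h6
    have : (6 : k) = 3 * 2 := by norm_num
    rw [this, h, mul_zero]
  have h3 : (3 : k) ≠ 0 := by
    intro h; apply h6
    have : (6 : k) = 2 * 3 := by norm_num
    rw [this, h, mul_zero]
  have h27 : (27 : k) ≠ 0 := by
    have : (27 : k) = 3 ^ 3 := by norm_num
    rw [this]; exact pow_ne_zero _ h3
  have h54 : (54 : k) ≠ 0 := by
    have : (54 : k) = 2 * 27 := by norm_num
    rw [this]; exact mul_ne_zero h2 h27
  set c : k := -A / 27 with hc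
  set c' : k := -B / 54 with hc'
  have e1 : -27 * c = A := by
    rw [hc, neg_mul, mul_div_cancel₀ _ h27, neg_neg]
  have e2 : -54 * c' = B := by
    rw [hc', neg_mul, mul_div_cancel₀ _ h54, neg_neg]
  have hcc : c ^ 3 - c' ^ 2 ≠ 0 := by
    intro h0
    apply hD
    have e3 : 4 * A ^ 3 + 27 * B ^ 2 = -78732 * (c ^ 3 - c' ^ 2) := by
      rw [← e1, ← e2]
      ring
    rw [e3, h0, mul_zero]
  have hpts : Nat.card {P : k × k // P.2 ^ 2 = P.1 ^ 3 + A * P.1 + B} =
      Pool.Agent.H341R2.EC.short c c' := by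
    unfold Pool.Agent.H341R2.EC.short
    refine Nat.card_congr (Equiv.subtypeEquivRight fun P => ?_)
    have e3 : P.1 ^ 3 + A * P.1 + B = P.1 ^ 3 - 27 * c * P.1 - 54 * c' := by
      rw [← e1, ← e2]
      ring
    rw [e3]
  have e4 := Pool.Agent.H341R2.EC.short_eq h6 c c'
  have e5 := Pool.Agent.H341R2.EC.csum_bound h6 hcc
  unfold Pool.Agent.H341R2.EC.csum at e5
  have e6 : ((Pool.Agent.H341R2.EC.short c c' : ℕ) : ℝ) = Fintype.card k +
      ((∑ x : k, quadraticChar k ((Pool.Agent.H341R2.EC.cub c c').eval x) : ℤ) : ℝ) := by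
    have := congrArg (fun z : ℤ => (z : ℝ)) e4
    simpa using this
  rw [hpts, e6, sub_add_cancel_left, abs_neg]
  exact e5

variable {D}

/-- **Hasse's bound** -/
theorem hasseV {v : HeightOneSpectrum (𝓞 D.K)} (h : D.Good v) : |(D.trace v : ℝ)| ≤ 2 * √(nm v) := by
  have : v.asIdeal.IsMaximal := v.isMaximal
  have hfin : Finite (𝓞 D.K ⧸ v.asIdeal) := by
    have h1 : nm v ≠ 0 := by have := two_le_nm v; omega
    unfold nm at h1
    rw [Ideal.absNorm_apply, Submodule.cardQuot_apply] at h1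
    exact Nat.finite_of_card_ne_zero h1
  let _ : Fintype (𝓞 D.K ⧸ v.asIdeal) := Fintype.ofFinite _
  have hcard : Fintype.card (𝓞 D.K ⧸ v.asIdeal) = nm v := by
    unfold nm
    rw [Ideal.absNorm_apply, Submodule.cardQuot_apply, Nat.card_eq_fintype_card]
  let _ : Field (𝓞 D.K ⧸ v.asIdeal) := Ideal.Quotient.field v.asIdeal
  have h1 := hasseK (k := 𝓞 D.K ⧸ v.asIdeal) (A := Ideal.Quotient.mk v.asIdeal D.a)
    (B := Ideal.Quotient.mk v.asIdeal D.b) (fun h0 => h (by
      rw [← Ideal.Quotient.eq_zero_iff_mem, ← h0]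
      simp only [map_mul, map_add, map_pow, map_ofNat]))
  rw [hcard] at h1
  unfold trace
  push_cast
  exact h1

theorem sqrt_nm_pos (v : HeightOneSpectrum (𝓞 D.K)) : 0 < √(nm v : ℝ) := by
  have hp2 : (2 : ℝ) ≤ nm v := by exact_mod_cast two_le_nm v
  exact Real.sqrt_pos.2 (by linarith)

variable (D)

/-- half of the normalised trace -/
noncomputable def tr (v : HeightOneSpectrum (𝓞 D.K)) : ℝ := (D.trace v : ℝ) / (2 * √(nm v))

theorem tr_abs {v : HeightOneSpectrum (𝓞 D.K)} (h : D.Good v) : |D.tr v| ≤ 1 := by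
  have h1 := sqrt_nm_pos (D := D) v
  unfold tr
  rw [abs_div, abs_of_pos (by linarith : 0 < 2 * √(nm v : ℝ)), div_le_one (by linarith)]
  exact hasseV h

open Classical in
/-- the local roots -/
noncomputable def be (v : HeightOneSpectrum (𝓞 D.K)) (j : Fin 2) : ℂ :=
  if D.Good v then D.c v * rt (D.tr v) j else 0

theorem be_norm (v : HeightOneSpectrum (𝓞 D.K)) (j : Fin 2) : ‖D.be v j‖ ≤ 1 := by
  classical
  unfold be
  split_ifs with h
  · rw [norm_mul]
    exact mul_le_one₀ (D.norm_c v) (norm_nonneg _) (rt_norm (D.tr_abs h) _)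
  · simp

theorem LFun_eq {s : ℂ} (hs : 1 < s.re) : D.LFun (s + 1 / 2) = cexp (FF (bb D.be) s) := by
  classical
  have h1 := hasProd_L D.be_norm hs
  rw [← h1.tprod_eq]
  unfold LFun
  refine tprod_congr fun v => ?_
  rw [Fin.prod_univ_two]
  unfold be
  by_cases hv : D.Good v
  · simp only [if_pos hv]
    have hn0 : (0 : ℝ) < (nm v : ℝ) := by
      have := two_le_nm v
      exact_mod_cast (by omega : 0 < nm v)
    have h1 : 0 < √(nm v : ℝ) := Real.sqrt_pos.2 hn0
    have h1c : ((√(nm v : ℝ) : ℝ) : ℂ) ≠ 0 := by exact_mod_cast h1.ne'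
    have hnc : ((nm v : ℕ) : ℂ) ≠ 0 := by exact_mod_cast hn0.ne'
    have hs2 : ((√(nm v : ℝ) : ℝ) : ℂ) = ((nm v : ℕ) : ℂ) ^ (1 / 2 : ℂ) := by
      rw [Real.sqrt_eq_rpow, Complex.ofReal_cpow hn0.le]
      push_cast
      rfl
    have hne : ((nm v : ℕ) : ℂ) ^ (1 / 2 : ℂ) ≠ 0 := hs2 ▸ h1c
    have e0 : (Ideal.absNorm v.asIdeal : ℂ) = ((nm v : ℕ) : ℂ) := rfl
    set x : ℂ := ((nm v : ℕ) : ℂ) ^ (-s) with hx
    have e1 : ((nm v : ℕ) : ℂ) ^ (-(s + 1 / 2)) = x / ((√(nm v : ℝ) : ℝ) : ℂ) := by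
      rw [hs2, eq_div_iff hne, ← Complex.cpow_add _ _ hnc]
      congr 1
      ring
    have e2 : ((nm v : ℕ) : ℂ) ^ (1 - 2 * (s + 1 / 2)) = x ^ 2 := by
      rw [hx, ← Complex.cpow_nat_mul]
      congr 1
      push_cast
      ring
    have e3 := rt_prod (D.tr_abs hv) (D.c v * x)
    rw [← mul_inv, e0, e1, e2]
    congr 1
    have e4 : ∀ i, D.c v * rt (D.tr v) i * x = rt (D.tr v) i * (D.c v * x) := fun i => by ring
    rw [e4, e4, e3]
    have e5 : 2 * (D.tr v : ℂ) = (D.trace v : ℂ) / ((√(nm v : ℝ) : ℝ) : ℂ) := by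
      unfold tr
      push_cast
      field_simp
    rw [e5, mul_pow]
    field_simp
  · simp [if_neg hv]

end EDatum

/-- **The family.** -/
theorem ell_fam {ι : Type*} (D : ι → EDatum) :
    Fam (fun j => (D j).LFun) (fun _ => (1 : ℝ) / 2) (fun j => (Module.finrank ℚ (D j).K : ℝ) * 2)
      (fun j => bb (D j).be) where
  hb := fun j x => by
    have := norm_bb (D j).be_norm x
    push_cast at this ⊢
    exact this
  hL := fun j s hs => by
    have h1 := (D j).LFun_eq (s := s - (((1 : ℝ) / 2 : ℝ) : ℂ)) (by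
      rw [Complex.sub_re, Complex.ofReal_re]
      linarith)
    rw [← h1]
    congr 1
    push_cast
    ring

end Pool.Agent.Q12.VB
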