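import Mathlib
import Pool.Agent.Q12.VB.Gen
import Pool.Agent.Q12.WN.Asm

/-! One-sided bounds in windows, for families. -/

set_option autoImplicit false

open Complex MeasureTheory Set Filter Topology
open Pool.Agent.W189.TP (DS)
open Pool.Agent.TH339.MP (PP FF tm)

namespace Pool.Agent.Q12.VB

open Pool.Agent.Q12.WN

variable {ι : Type*} [Fintype ι] {L : ι → ℂ → ℂ} {w M : ι → ℝ} {b : ι → PP → ℂ}

theorem psysP : PSys (fun p : Nat.Primes => ((p : ℕ) : ℝ)) where
  two_le := fun p => by exact_mod_cast p.2.two_le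
  summ := fun σ hσ => Nat.Primes.summable_rpow.2 (by linarith)

theorem cexp_log (p : Nat.Primes) (s : ℂ) : cexp (-(s * Real.log ((p : ℕ) : ℝ))) = ((p : ℕ) : ℂ) ^ (-s) := by
  have hn0 : (0 : ℝ) < ((p : ℕ) : ℝ) := by exact_mod_cast p.2.pos
  have hnc : ((p : ℕ) : ℂ) ≠ 0 := by exact_mod_cast hn0.ne'
  rw [Complex.cpow_def_of_ne_zero hnc, ← Complex.ofReal_natCast, ← Complex.ofReal_log hn0.le]
  congr 1
  ring

/-- the coefficient of the combination -/
noncomputable def cw (m : ι → ℤ) (b : ι → PP → ℂ) (y : PP) : ℝ := (∑ j, (m j : ℂ) * b j y).re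

theorem norm_int (z : ℤ) : ‖(z : ℂ)‖ = |(z : ℝ)| := by
  rw [← Complex.ofReal_intCast, Complex.norm_real, Real.norm_eq_abs]

theorem Fam.M_nonneg (h : Fam L w M b) (j : ι) : 0 ≤ M j := by
  have h1 := (norm_nonneg _).trans (h.hb j (⟨2, Nat.prime_two⟩, 0))
  simpa using h1

theorem Fam.cw_abs (h : Fam L w M b) (m : ι → ℤ) (y : PP) :
    |cw m b y| ≤ (∑ j, |(m j : ℝ)| * M j) * (|(1 : ℝ)| / ((y.2 : ℝ) + 1)) := by
  unfold cw
  rw [abs_one, mul_one_div, Finset.sum_div]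
  refine (Complex.abs_re_le_norm _).trans ((norm_sum_le _ _).trans (Finset.sum_le_sum fun j _ => ?_))
  rw [norm_mul, norm_int, mul_div_assoc]
  refine mul_le_mul_of_nonneg_left ?_ (abs_nonneg _)
  have := h.hb j y
  push_cast at this
  exact this

theorem Fam.cw_ds (h : Fam L w M b) {m : ι → ℤ} (hr : ∀ x, (∑ j, (m j : ℂ) * b j x).im = 0) {s : ℂ}
    (hs : 1 < s.re) :
    DS (cw m b) (LG fun p : Nat.Primes => ((p : ℕ) : ℝ)) s = ∑ j, (m j : ℂ) * FF (b j) s := by
  unfold DS FF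
  rw [Finset.sum_congr rfl fun j _ => (tsum_mul_left (a := (m j : ℂ)) (f := tm (b j) s)).symm,
    ← Summable.tsum_finsetSum fun j _ => (tm_summable (h.hb j) hs).mul_left (m j : ℂ)]
  refine tsum_congr fun y => ?_
  have e2 : ((cw m b y : ℝ) : ℂ) = ∑ j, (m j : ℂ) * b j y := by
    unfold cw
    refine Complex.ext ?_ ?_
    · exact Complex.ofReal_re _
    · rw [Complex.ofReal_im, hr y]
  rw [e2, Finset.sum_mul, cexp_LG, cexp_log]
  refine Finset.sum_congr rfl fun j _ => ?_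
  unfold tm
  ring

/-- For some `A, B` and arbitrarily large `X`, `f` satisfies `f x ≥ -(A x^c + B)` in the whole window `[X^{1-δ}, X]`. -/
def BoundedBelow (c δ : ℝ) (f : ℝ → ℝ) : Prop :=
  ∃ A B : ℝ, ∃ᶠ X : ℝ in atTop, ∀ x : ℝ, X ^ (1 - δ) ≤ x → x ≤ X → -(A * x ^ c + B) ≤ f x

/-- the order of a meromorphic function at `z`: positive at a zero, negative at a pole -/
noncomputable def ord (F : ℂ → ℂ) (z : ℂ) : ℤ := (meromorphicOrderAt F z).untop₀

/-- `∑_{p ≤ x} f(p)` -/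
noncomputable def sumUpTo (f : Nat.Primes → ℝ) (x : ℝ) : ℝ :=
  open scoped Classical in ∑' p : Nat.Primes, if ((p : ℕ) : ℝ) ≤ x then f p else 0

theorem ne_top_of_exp {G : ℂ → ℂ} (hG : MeromorphicOn G univ) (hE : ∀ s : ℂ, 1 < s.re → G s ≠ 0) (z : ℂ) :
    meromorphicOrderAt G z ≠ ⊤ := by
  refine (hG.exists_meromorphicOrderAt_ne_top_iff_forall isConnected_univ).1 ⟨⟨2, mem_univ _⟩, ?_⟩ ⟨z, mem_univ _⟩
  intro h1
  have h1' : meromorphicOrderAt G 2 = ⊤ := h1
  rw [meromorphicOrderAt_eq_top_iff] at h1'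
  have h2 : ∀ᶠ s : ℂ in 𝓝[≠] 2, 1 < s.re := by
    refine Filter.Eventually.filter_mono nhdsWithin_le_nhds ?_
    exact (isOpen_lt continuous_const Complex.continuous_re).mem_nhds (by norm_num)
  obtain ⟨s, h3, h4⟩ := (h1'.and h2).exists
  exact hE s h4 h3

/-- **One-sided bounds in windows for meromorphic continuations** (normalised: `G_j(s)` continues
`L_j(s + w_j)`). -/
theorem Fam.win (h : Fam L w M b) {m : ι → ℤ} (hr : ∀ x, (∑ j, (m j : ℂ) * b j x).im = 0) {G : ι → ℂ → ℂ}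
    (hG : ∀ j, MeromorphicOn (G j) univ) (hE : ∀ j, ∀ s : ℂ, 1 < s.re → G j s = cexp (FF (b j) s)) {c : ℝ}
    (hc : 1 / 2 ≤ c) (hreal : ∀ x : ℝ, c < x → 0 ≤ ∑ j, m j * ord (G j) (x : ℂ)) {δ : ℝ} (hδ : 0 < δ)
    (hw : BoundedBelow c δ (sumUpTo fun p => ∑ j, m j * (b j (p, 0)).re)) {ρ : ℂ} (hρ : c < ρ.re) :
    ∑ j, m j * ord (G j) ρ = 0 := by
  classical
  by_contra ho
  obtain ⟨A, B, hAB⟩ := hw
  have hne : ∀ j z, meromorphicOrderAt (G j) z ≠ ⊤ := fun j z => ne_top_of_exp (hG j) (fun s hs => by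
    rw [hE j s hs]
    exact Complex.exp_ne_zero _) z
  have hord : ∀ z : ℂ, meromorphicOrderAt (fun s => ∏ j, (G j ^ m j) s) z = ((∑ j, m j * ord (G j) z : ℤ) : WithTop ℤ) :=
    fun z => by
    rw [meromorphicOrderAt_fun_prod fun j _ => (hG j z (mem_univ z)).zpow (m j)]
    push_cast
    refine Finset.sum_congr rfl fun j _ => ?_
    rw [meromorphicOrderAt_zpow (hG j z (mem_univ z))]
    unfold ord
    rw [WithTop.coe_untop₀_of_ne_top (hne j z)]
  have hFm : MeromorphicOn (fun s => ∏ j, (G j ^ m j) s) univ := fun z hz => by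
    have h1 : MeromorphicAt (∏ j, G j ^ m j) z := MeromorphicAt.prod fun j _ => (hG j z hz).zpow (m j)
    have h2 : (∏ j, G j ^ m j) = fun s => ∏ j, (G j ^ m j) s := by
      funext s
      exact Finset.prod_apply _ _ _
    rwa [h2] at h1
  have hH : 0 ≤ ∑ j, |(m j : ℝ)| * M j := Finset.sum_nonneg fun j _ => mul_nonneg (abs_nonneg _) (h.M_nonneg j)
  have hsum := sum_neg_c (d := cw m b) (L := LG fun p : Nat.Primes => ((p : ℕ) : ℝ)) (LG_nonneg psysP)
    (fun t ht => by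
      refine Summable.of_nonneg_of_le (fun y => by positivity) (fun y => ?_)
        ((one_summ psysP ht).mul_left (∑ j, |(m j : ℝ)| * M j))
      rw [← mul_assoc]
      exact mul_le_mul_of_nonneg_right (h.cw_abs m y) (Real.exp_pos _).le) hFm (fun s hs => by
      rw [h.cw_ds hr hs, Complex.exp_sum]
      refine Finset.prod_congr rfl fun j _ => ?_
      rw [Pi.pow_apply, hE j s hs, ← Complex.exp_int_mul]) (c := c) (by linarith)
    (fun x hx => by rw [hord]; exact_mod_cast hreal x hx) hρ (by rw [hord]; exact_mod_cast ho)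
  obtain ⟨a, ha, hwin⟩ := hsum
  have key := primesG (B := B + 1) psysP (e := fun y => -cw m b y) hH (fun y => by
      have h1 := h.cw_abs m y
      have h2 := neg_le_abs (cw m b y)
      have h3 : |(1 : ℝ)| / ((y.2 : ℝ) + 1) ≤ 1 := by
        rw [abs_one, div_le_one (by positivity)]
        have : (0 : ℝ) ≤ y.2 := Nat.cast_nonneg _
        linarith
      nlinarith [mul_le_mul_of_nonneg_left h3 hH]) A hc ha hwin hδ
  obtain ⟨X, h1, h2⟩ := (hAB.and_eventually key).exists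
  obtain ⟨x, h3, h4, h5⟩ := h2
  have h6 := h1 x h3 h4
  have h7 : (∑' v : Nat.Primes, (if ((v : ℕ) : ℝ) ≤ x then -cw m b (v, 0) else 0)) =
      -sumUpTo (fun p => ∑ j, m j * (b j (p, 0)).re) x := by
    unfold sumUpTo
    rw [← tsum_neg]
    refine tsum_congr fun p => ?_
    split_ifs
    · unfold cw
      rw [Complex.re_sum]
      congr 1
      refine Finset.sum_congr rfl fun j _ => ?_
      rw [← Complex.ofReal_intCast, Complex.re_ofReal_mul]
    · rw [neg_zero]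
  rw [h7] at h5
  linarith

end Pool.Agent.Q12.VB
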