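import Mathlib
import Pool.Agent.Q12.VB.EK
import Pool.Agent.Q12.VB.Win

/-! One-sided bounds in windows for elliptic curves over number fields. -/

set_option autoImplicit false

open Complex MeasureTheory Set Filter Topology NumberField IsDedekindDomain
open Pool.Agent.TH339.MP (PP FF bb norm_bb nm two_le_nm Sp mem_Sp dg dg_pos pr nm_eq)
open Pool.Agent.Q12.EC (rt rt_norm rt_prod rt_real rt_sum rt_conj)

namespace Pool.Agent.Q12.VB

namespace EDatum

variable (D : EDatum)

/-- the same curve, with the complex conjugate twist -/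
noncomputable def conj : EDatum where
  K := D.K
  a := D.a
  b := D.b
  c := fun v => (starRingEnd ℂ) (D.c v)
  norm_c := fun v => by
    rw [Complex.norm_conj]
    exact D.norm_c v

theorem conj_eq (h : ∀ v, (D.c v).im = 0) : D.conj = D := by
  have : (fun v => (starRingEnd ℂ) (D.c v)) = D.c := by
    funext v
    exact Complex.conj_eq_iff_im.2 (h v)
  unfold conj
  cases D
  congr

theorem be_conj (v : HeightOneSpectrum (𝓞 D.K)) (k : ℕ) :
    ∑ j, D.conj.be v j ^ k = (starRingEnd ℂ) (∑ j, D.be v j ^ k) := by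
  classical
  have e0 : ∀ j, D.conj.be v j = if D.Good v then (starRingEnd ℂ) (D.c v) * rt (D.tr v) j else 0 := fun j => rfl
  have e1 : ∀ j, D.be v j = if D.Good v then D.c v * rt (D.tr v) j else 0 := fun j => rfl
  rw [Fin.sum_univ_two, Fin.sum_univ_two, e0, e0, e1, e1]
  by_cases h : D.Good v
  · simp only [if_pos h]
    rw [rt_conj]
    simp only [map_add, map_pow, map_mul, Complex.conj_conj]
    ring
  · simp only [if_neg h]
    simp only [map_add, map_pow, map_zero]

theorem bb_conj (x : PP) : bb D.conj.be x = (starRingEnd ℂ) (bb D.be x) := by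
  have e0 : bb D.conj.be x = ∑ v ∈ (Sp x.1 : Finset (HeightOneSpectrum (𝓞 D.K))), if dg v ∣ x.2 + 1 then
    (∑ j, D.conj.be v j ^ ((x.2 + 1) / dg v)) * ((dg v : ℂ) / ((x.2 + 1 : ℕ) : ℂ)) else 0 := rfl
  rw [e0]
  unfold bb
  rw [map_sum]
  refine Finset.sum_congr rfl fun v _ => ?_
  split_ifs
  · rw [map_mul, map_div₀, map_natCast, map_natCast, ← D.be_conj]
  · rw [map_zero]

open Classical in
/-- `∑ c(v) a_v / √p` over the primes `v` of norm `p` (not dividing `6 (4 a³ + 27 b²)`) -/
noncomputable def coeff (p : Nat.Primes) : ℂ :=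
  (∑' v : HeightOneSpectrum (𝓞 D.K), if D.Good v ∧ Ideal.absNorm v.asIdeal = p then D.c v * D.trace v else 0) /
    √(p : ℕ)

theorem bb_zero (p : Nat.Primes) : bb D.be (p, 0) = D.coeff p := by
  classical
  unfold coeff
  rw [tsum_eq_sum (s := (Sp p : Finset (HeightOneSpectrum (𝓞 D.K)))), Finset.sum_div]
  · unfold bb
    refine Finset.sum_congr rfl fun v hv => ?_
    have hpr : pr v = p := (mem_Sp p v).1 hv
    have hnm := nm_eq v
    rw [hpr] at hnm
    have hdg : (dg v ∣ 0 + 1) ↔ Ideal.absNorm v.asIdeal = p := by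
      rw [zero_add, Nat.dvd_one]
      constructor
      · intro h
        rw [h, pow_one] at hnm
        exact hnm
      · intro h
        have h1 : nm v = (p : ℕ) := h
        rw [h1] at hnm
        have h2 := Nat.pow_right_injective p.2.two_le (a₁ := 1) (a₂ := dg v) (by
          show (p : ℕ) ^ 1 = (p : ℕ) ^ dg v
          rw [pow_one]
          exact hnm)
        exact h2.symm
    by_cases hd : dg v ∣ 0 + 1
    · have hd1 : dg v = 1 := by
        rw [zero_add, Nat.dvd_one] at hd
        exact hd
      have hN := hdg.1 hd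
      rw [if_pos hd]
      by_cases hg : D.Good v
      · rw [if_pos ⟨hg, hN⟩]
        have hnv : nm v = (p : ℕ) := hN
        have hn0 : (0 : ℝ) < (nm v : ℝ) := by
          have := two_le_nm v
          exact_mod_cast (by omega : 0 < nm v)
        have h1 : ((√(nm v : ℝ) : ℝ) : ℂ) ≠ 0 := by
          have := Real.sqrt_pos.2 hn0
          exact_mod_cast this.ne'
        have hbe : ∀ j, D.be v j = D.c v * rt (D.tr v) j := fun j => by
          unfold be
          rw [if_pos hg]
        have hsum : ∑ j, D.be v j ^ ((0 + 1) / dg v) = D.c v * (2 * (D.tr v : ℂ)) := by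
          rw [← rt_sum, Finset.mul_sum]
          refine Finset.sum_congr rfl fun j _ => ?_
          rw [hd1, hbe]
          simp
        simp only
        rw [hsum, hd1]
        unfold tr
        rw [← hnv]
        push_cast
        field_simp
      · rw [if_neg (fun h => hg h.1)]
        have hbe : ∀ j, D.be v j = 0 := fun j => by
          unfold be
          rw [if_neg hg]
        have hsum : ∑ j, D.be v j ^ ((0 + 1) / dg v) = 0 := by
          refine Finset.sum_eq_zero fun j _ => ?_
          rw [hd1, hbe]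
          simp
        simp only
        rw [hsum]
        simp
    · rw [if_neg hd, if_neg (fun h => hd (hdg.2 h.2)), zero_div]
  · intro v hv
    rw [if_neg]
    rintro ⟨-, h⟩
    apply hv
    rw [mem_Sp]
    have hnm := nm_eq v
    have h1 : nm v = (p : ℕ) := h
    rw [h1] at hnm
    have h2 : (pr v : ℕ) ∣ (p : ℕ) := by
      rw [hnm]
      exact dvd_pow_self _ (dg_pos v).ne'
    exact Subtype.ext ((Nat.prime_dvd_prime_iff_eq (pr v).2 p.2).1 h2)

end EDatum

/-- **One-sided bounds in windows for meromorphic continuations.** -/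
theorem ell_win {ι : Type*} [Fintype ι] (D : ι → EDatum) (m : ι → ℤ) (σ : Equiv.Perm ι)
    (hσ : ∀ j, m (σ j) = m j ∧ D (σ j) = (D j).conj) (F : ι → ℂ → ℂ) (hF : ∀ j, MeromorphicOn (F j) univ)
    (hFL : ∀ j, ∀ s : ℂ, 3 / 2 < s.re → F j s = (D j).LFun s) {c δ : ℝ} (hc : 1 / 2 ≤ c) (hδ : 0 < δ)
    (hreal : ∀ x : ℝ, c + 1 / 2 < x → 0 ≤ ∑ j, m j * ord (F j) (x : ℂ))
    (hw : BoundedBelow c δ (sumUpTo fun p => ∑ j, m j * ((D j).coeff p).re)) {ρ : ℂ} (hρ : c + 1 / 2 < ρ.re) :
    ∑ j, m j * ord (F j) ρ = 0 := by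
  have hord : ∀ j (z : ℂ), ord (fun s => F j (s + 1 / 2)) (z - 1 / 2) = ord (F j) z := fun j z => by
    unfold ord
    have h1 : meromorphicOrderAt (F j ∘ fun s : ℂ => s + 1 / 2) (z - 1 / 2) =
        meromorphicOrderAt (F j) ((fun s : ℂ => s + 1 / 2) (z - 1 / 2)) := by
      refine meromorphicOrderAt_comp_of_deriv_ne_zero ?_ ?_
      · exact analyticAt_id.add analyticAt_const
      · have : deriv (fun s : ℂ => s + 1 / 2) (z - 1 / 2) = 1 := by
          simp
        rw [this]
        exact one_ne_zero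
    have h2 : (fun s : ℂ => s + 1 / 2) (z - 1 / 2) = z := by
      simp
    rw [h2] at h1
    have h3 : (F j ∘ fun s : ℂ => s + 1 / 2) = fun s => F j (s + 1 / 2) := rfl
    rw [← h3, h1]
  have key := (ell_fam D).win (m := m) (G := fun j s => F j (s + 1 / 2)) (fun x => by
      have h1 : ∑ j, (m j : ℂ) * bb (D j).be x = (starRingEnd ℂ) (∑ j, (m j : ℂ) * bb (D j).be x) := by
        rw [map_sum, ← Equiv.sum_comp σ]
        refine Finset.sum_congr rfl fun j _ => ?_
        rw [(hσ j).1, (hσ j).2, (D j).bb_conj, map_mul, map_intCast]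
      exact Complex.conj_eq_iff_im.1 h1.symm) (fun j z _ => by
      have h1 : MeromorphicAt (F j) ((fun s : ℂ => s + 1 / 2) z) := hF j _ (mem_univ _)
      exact MeromorphicAt.comp_analyticAt (g := fun s : ℂ => s + 1 / 2) h1 (analyticAt_id.add analyticAt_const))
    (fun j s hs => by
      show F j (s + 1 / 2) = _
      rw [hFL j _ (by rw [Complex.add_re]; norm_num; linarith), (D j).LFun_eq hs]) hc
    (fun x hx => by
      have h1 := hreal (x + 1 / 2) (by linarith)
      have h2 : (((x + 1 / 2 : ℝ) : ℂ) - 1 / 2) = (x : ℂ) := by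
        push_cast
        ring
      calc (0 : ℤ) ≤ ∑ j, m j * ord (F j) ((x + 1 / 2 : ℝ) : ℂ) := h1
        _ = ∑ j, m j * ord (fun s => F j (s + 1 / 2)) (x : ℂ) := by
          refine Finset.sum_congr rfl fun j _ => ?_
          rw [← hord j, h2]) hδ
    (by
      have h1 : (fun p : Nat.Primes => ∑ j, (m j : ℝ) * (bb (D j).be (p, 0)).re) =
          fun p => ∑ j, m j * ((D j).coeff p).re := by
        funext p
        refine Finset.sum_congr rfl fun j _ => ?_
        rw [(D j).bb_zero]
      rw [h1]
      exact hw) (ρ := ρ - 1 / 2) (by rw [Complex.sub_re]; norm_num; linarith)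
  rw [← key]
  exact Finset.sum_congr rfl fun j _ => by rw [hord]

end Pool.Agent.Q12.VB
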