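import Mathlib
import Pool.Agent.Q12.VB.EW

/-! Two-sided bounds in windows: nothing is assumed on the real line. -/

set_option autoImplicit false

open Complex MeasureTheory Set Filter Topology
open Pool.Agent.TH339.MP (PP FF tm)

namespace Pool.Agent.Q12.VB

/-- For some `A, B` and arbitrarily large `X`, `|f x| ≤ A x^c + B` in the whole window `[X^{1-δ}, X]`. -/
def Bounded (c δ : ℝ) (f : ℝ → ℝ) : Prop :=
  ∃ A B : ℝ, ∃ᶠ X : ℝ in atTop, ∀ x : ℝ, X ^ (1 - δ) ≤ x → x ≤ X → |f x| ≤ A * x ^ c + B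

theorem Bounded.below {c δ : ℝ} {f : ℝ → ℝ} (h : Bounded c δ f) : BoundedBelow c δ f := by
  obtain ⟨A, B, h⟩ := h
  exact ⟨A, B, h.mono fun X hX x h1 h2 => neg_le_of_abs_le (hX x h1 h2)⟩

theorem Bounded.neg {c δ : ℝ} {f : ℝ → ℝ} (h : Bounded c δ f) : Bounded c δ fun x => -f x := by
  obtain ⟨A, B, h⟩ := h
  exact ⟨A, B, h.mono fun X hX x h1 h2 => by rw [abs_neg]; exact hX x h1 h2⟩

theorem Bounded.mono {c c' δ : ℝ} {f : ℝ → ℝ} (hδ : δ ≤ 1) (hc : c ≤ c') (h : Bounded c δ f) : Bounded c' δ f := by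
  obtain ⟨A, B, h⟩ := h
  refine ⟨|A|, B, (h.and_eventually (eventually_ge_atTop 1)).mono fun X hX x h1 h2 => ?_⟩
  have hX1 : 1 ≤ x := le_trans (Real.one_le_rpow hX.2 (by linarith)) h1
  have h3 : A * x ^ c ≤ |A| * x ^ c' := by
    have h4 : x ^ c ≤ x ^ c' := Real.rpow_le_rpow_of_exponent_le hX1 hc
    have h5 : 0 < x ^ c := Real.rpow_pos_of_pos (by linarith) _
    calc A * x ^ c ≤ |A| * x ^ c := mul_le_mul_of_nonneg_right (le_abs_self A) h5.le
      _ ≤ |A| * x ^ c' := mul_le_mul_of_nonneg_left h4 (abs_nonneg A)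
  linarith [hX.1 x h1 h2]

theorem ord_ev {G : ℂ → ℂ} (hG : MeromorphicOn G univ) (hne : ∀ z, meromorphicOrderAt G z ≠ ⊤) (z : ℂ) :
    ∀ᶠ y in 𝓝[≠] z, ord G y = 0 := by
  have h1 := (hG z (mem_univ z)).eventually_analyticAt
  have h2 := (meromorphicOrderAt_ne_top_iff_eventually_ne_zero (hG z (mem_univ z))).1 (hne z)
  filter_upwards [h1, h2] with y h3 h4
  unfold ord
  rw [h3.meromorphicOrderAt_eq, h3.analyticOrderAt_eq_zero.2 h4]
  rfl

theorem ord_zero {G : ℂ → ℂ} {z : ℂ} (h1 : AnalyticAt ℂ G z) (h2 : G z ≠ 0) : ord G z = 0 := by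
  unfold ord
  rw [h1.meromorphicOrderAt_eq, h1.analyticOrderAt_eq_zero.2 h2]
  rfl

theorem sumUpTo_neg (f : Nat.Primes → ℝ) (x : ℝ) : sumUpTo (fun p => -f p) x = -sumUpTo f x := by
  unfold sumUpTo
  rw [← tsum_neg]
  refine tsum_congr fun p => ?_
  split_ifs <;> simp

/-- **No real zeros or poles** if every largest one is excluded. -/
theorem no_real {P : ℂ → ℤ} (hev : ∀ z, ∀ᶠ y in 𝓝[≠] z, P y = 0) (h1 : ∀ x : ℝ, 1 < x → P x = 0) {c : ℝ}
    (h : ∀ c' x₁ : ℝ, c ≤ c' → c' < x₁ → (∀ x : ℝ, c' < x → x ≠ x₁ → P x = 0) → P x₁ = 0) {x : ℝ} (hx : c < x) :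
    P x = 0 := by
  by_contra hx0
  set S : Set ℝ := {y : ℝ | x ≤ y ∧ P y ≠ 0} with hS
  have hxS : x ∈ S := ⟨le_rfl, hx0⟩
  have hbdd : BddAbove S := ⟨1, fun y hy => by
    by_contra h2
    exact hy.2 (h1 y (not_le.1 h2))⟩
  set x₁ := sSup S with hx1
  have hle : x ≤ x₁ := le_csSup hbdd hxS
  have hreal : ∀ᶠ y : ℝ in 𝓝[≠] x₁, P y = 0 := by
    have h2 : Tendsto (fun y : ℝ => (y : ℂ)) (𝓝[≠] x₁) (𝓝[≠] (x₁ : ℂ)) := by
      rw [tendsto_nhdsWithin_iff]
      refine ⟨(Complex.continuous_ofReal.tendsto x₁).mono_left nhdsWithin_le_nhds, ?_⟩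
      filter_upwards [self_mem_nhdsWithin] with y hy
      intro h3
      exact hy (Complex.ofReal_injective (h3 : (y : ℂ) = (x₁ : ℂ)))
    exact h2.eventually (hev x₁)
  rw [eventually_nhdsWithin_iff, Metric.eventually_nhds_iff] at hreal
  obtain ⟨ε, hε, hball⟩ := hreal
  have hup : ∀ y : ℝ, x₁ < y → P y = 0 := fun y hy => by
    by_contra h3
    have : y ≤ x₁ := le_csSup hbdd ⟨by linarith, h3⟩
    linarith
  have hx1S : P x₁ ≠ 0 := by
    intro h3
    obtain ⟨y, hy, hy2⟩ := exists_lt_of_lt_csSup ⟨x, hxS⟩ (show x₁ - ε < sSup S by rw [← hx1]; linarith)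
    have hy3 : y ≤ x₁ := le_csSup hbdd hy
    rcases hy3.lt_or_eq with h4 | h4
    · exact hy.2 (hball (by rw [Real.dist_eq, abs_lt]; constructor <;> linarith) (ne_of_lt h4))
    · rw [h4] at hy
      exact hy.2 h3
  apply hx1S
  refine h (max c (x₁ - ε)) x₁ (le_max_left _ _) (max_lt (by linarith) (by linarith)) fun y hy hne => ?_
  rcases lt_or_gt_of_ne hne with h4 | h4
  · refine hball ?_ hne
    have := (le_max_right c (x₁ - ε)).trans_lt hy
    rw [Real.dist_eq, abs_lt]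
    constructor <;> linarith
  · exact hup y h4

variable {ι : Type*} [Fintype ι] {L : ι → ℂ → ℂ} {w M : ι → ℝ} {b : ι → PP → ℂ}

/-- **Two-sided bounds in windows** -/
theorem Fam.win_two (h : Fam L w M b) {m : ι → ℤ} (hr : ∀ x, (∑ j, (m j : ℂ) * b j x).im = 0) {G : ι → ℂ → ℂ}
    (hG : ∀ j, MeromorphicOn (G j) univ) (hE : ∀ j, ∀ s : ℂ, 1 < s.re → G j s = cexp (FF (b j) s)) {c : ℝ}
    (hc : 1 / 2 ≤ c) {δ : ℝ} (hδ : 0 < δ) (hδ1 : δ ≤ 1)
    (hw : Bounded c δ (sumUpTo fun p => ∑ j, m j * (b j (p, 0)).re)) {ρ : ℂ} (hρ : c < ρ.re) :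
    ∑ j, m j * ord (G j) ρ = 0 := by
  have hne : ∀ j z, meromorphicOrderAt (G j) z ≠ ⊤ := fun j z => ne_top_of_exp (hG j) (fun s hs => by
    rw [hE j s hs]
    exact Complex.exp_ne_zero _) z
  have hev : ∀ z, ∀ᶠ y in 𝓝[≠] z, ∑ j, m j * ord (G j) y = 0 := fun z => by
    have h1 : ∀ᶠ y in 𝓝[≠] z, ∀ j, ord (G j) y = 0 := by
      rw [eventually_all]
      exact fun j => ord_ev (hG j) (hne j) z
    filter_upwards [h1] with y hy
    simp [hy]
  have h1 : ∀ x : ℝ, 1 < x → ∑ j, m j * ord (G j) (x : ℂ) = 0 := fun x hx => by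
    have hx' : 1 < (x : ℂ).re := by rwa [Complex.ofReal_re]
    have h2 : ∀ j, ord (G j) (x : ℂ) = 0 := fun j => by
      unfold ord
      have hm := hG j (x : ℂ) (mem_univ _)
      have h3 : Tendsto (G j) (𝓝[≠] (x : ℂ)) (𝓝 (cexp (FF (b j) x))) := by
        have h4 : ContinuousAt (fun s => cexp (FF (b j) s)) (x : ℂ) := by
          have h5 : DifferentiableOn ℂ (FF (b j)) {s : ℂ | 1 < s.re} := Pool.Agent.TH339.MP.differentiableOn_FF (h.hb j)
          exact Complex.continuous_exp.continuousAt.comp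
            (h5.differentiableAt ((isOpen_lt continuous_const Complex.continuous_re).mem_nhds hx')).continuousAt
        refine (h4.tendsto.mono_left nhdsWithin_le_nhds).congr' ?_
        refine Filter.Eventually.filter_mono nhdsWithin_le_nhds ?_
        filter_upwards [(isOpen_lt continuous_const Complex.continuous_re).mem_nhds hx'] with s hs
        rw [hE j s hs]
      rw [(tendsto_ne_zero_iff_meromorphicOrderAt_eq_zero hm).1 ⟨_, Complex.exp_ne_zero _, h3⟩]
      rfl
    simp [h2]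
  have hreal : ∀ x : ℝ, c < x → ∑ j, m j * ord (G j) (x : ℂ) = 0 := fun x hx => by
    refine no_real (P := fun z => ∑ j, m j * ord (G j) z) hev h1 (c := c) (fun c' x₁ hc' hx1 hoth => ?_) hx
    have hw' := hw.mono hδ1 hc'
    show ∑ j, m j * ord (G j) (x₁ : ℂ) = 0
    rcases le_total 0 (∑ j, m j * ord (G j) (x₁ : ℂ)) with h3 | h3
    · refine h.win hr hG hE (hc.trans hc') (fun x hx => ?_) hδ hw'.below (ρ := (x₁ : ℂ))
        (by rwa [Complex.ofReal_re])
      by_cases hxx : x = x₁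
      · rw [hxx]
        exact h3
      · exact (hoth x hx hxx).ge
    · have key := h.win (m := fun j => -m j) (fun x => by
          have := hr x
          push_cast
          simp only [neg_mul, Finset.sum_neg_distrib, Complex.neg_im, this, neg_zero]) hG hE (hc.trans hc')
        (fun x hx => by
          simp only [neg_mul, Finset.sum_neg_distrib]
          by_cases hxx : x = x₁
          · rw [hxx]
            linarith
          · rw [hoth x hx hxx, neg_zero]) hδ (by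
          have e1 : (sumUpTo fun p : Nat.Primes => ∑ j, ((-m j : ℤ) : ℝ) * (b j (p, 0)).re) =
              fun x => -sumUpTo (fun p => ∑ j, m j * (b j (p, 0)).re) x := by
            funext x
            rw [← sumUpTo_neg]
            congr 1
            funext p
            push_cast
            simp only [neg_mul, Finset.sum_neg_distrib]
          rw [e1]
          exact hw'.neg.below) (ρ := (x₁ : ℂ)) (by rwa [Complex.ofReal_re])
      simp only [neg_mul, Finset.sum_neg_distrib, neg_eq_zero] at key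
      exact key
  exact h.win hr hG hE hc (fun x hx => (hreal x hx).ge) hδ hw.below hρ

end Pool.Agent.Q12.VB
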