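import Mathlib
import Pool.Agent.Q12.VB.Two

/-! Elliptic curves over number fields: one-sided and two-sided bounds in windows, for products. -/

set_option autoImplicit false

open Complex MeasureTheory Set Filter Topology NumberField IsDedekindDomain
open Pool.Agent.TH339.MP (PP FF bb)

namespace Pool.Agent.Q12.VB

theorem ord_shift (F : ℂ → ℂ) (z : ℂ) : ord (fun s => F (s + 1 / 2)) (z - 1 / 2) = ord F z := by
  unfold ord
  have h1 : meromorphicOrderAt (F ∘ fun s : ℂ => s + 1 / 2) (z - 1 / 2) =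
      meromorphicOrderAt F ((fun s : ℂ => s + 1 / 2) (z - 1 / 2)) := by
    refine meromorphicOrderAt_comp_of_deriv_ne_zero ?_ ?_
    · exact analyticAt_id.add analyticAt_const
    · have : deriv (fun s : ℂ => s + 1 / 2) (z - 1 / 2) = 1 := by
        simp
      rw [this]
      exact one_ne_zero
  have h2 : (fun s : ℂ => s + 1 / 2) (z - 1 / 2) = z := by
    simp
  rw [h2] at h1
  have h3 : (F ∘ fun s : ℂ => s + 1 / 2) = fun s => F (s + 1 / 2) := rfl
  rw [← h3, h1]

/-- A finite family of `L`-series `L(E_j/K_j ⊗ c_j, s)` with multiplicities `m_j`, stable under complex conjugation, and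
meromorphic functions `F_j` on `ℂ` which continue them. -/
structure Continued {ι : Type*} (D : ι → EDatum) (m : ι → ℤ) (F : ι → ℂ → ℂ) : Prop where
  /-- the family is stable under complex conjugation -/
  conj : ∃ σ : Equiv.Perm ι, ∀ j, m (σ j) = m j ∧ D (σ j) = (D j).conj
  mer : ∀ j, MeromorphicOn (F j) univ
  eq : ∀ j, ∀ s : ℂ, 3 / 2 < s.re → F j s = (D j).LFun s

variable {ι : Type*} [Fintype ι] {D : ι → EDatum} {m : ι → ℤ} {F : ι → ℂ → ℂ}

/-- `∏ F_j^{m_j}` -/
noncomputable def product (m : ι → ℤ) (F : ι → ℂ → ℂ) (s : ℂ) : ℂ := ∏ j, F j s ^ m j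

/-- `∑_{p ≤ x} ∑_j m_j ∑_{Nv = p} c_j(v) a_v(E_j) / √p` -/
noncomputable def primeSum (D : ι → EDatum) (m : ι → ℤ) : ℝ → ℝ := sumUpTo fun p => ∑ j, m j * ((D j).coeff p).re

theorem Continued.real (h : Continued D m F) (x : PP) : (∑ j, (m j : ℂ) * bb (D j).be x).im = 0 := by
  obtain ⟨σ, hσ⟩ := h.conj
  have h1 : ∑ j, (m j : ℂ) * bb (D j).be x = (starRingEnd ℂ) (∑ j, (m j : ℂ) * bb (D j).be x) := by
    rw [map_sum, ← Equiv.sum_comp σ]
    refine Finset.sum_congr rfl fun j _ => ?_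
    rw [(hσ j).1, (hσ j).2, (D j).bb_conj, map_mul, map_intCast]
  exact Complex.conj_eq_iff_im.1 h1.symm

theorem Continued.merG (h : Continued D m F) (j : ι) : MeromorphicOn (fun s => F j (s + 1 / 2)) univ := fun z _ => by
  have h1 : MeromorphicAt (F j) ((fun s : ℂ => s + 1 / 2) z) := h.mer j _ (mem_univ _)
  exact MeromorphicAt.comp_analyticAt (g := fun s : ℂ => s + 1 / 2) h1 (analyticAt_id.add analyticAt_const)

theorem Continued.eqG (h : Continued D m F) (j : ι) (s : ℂ) (hs : 1 < s.re) :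
    F j (s + 1 / 2) = cexp (FF (bb (D j).be) s) := by
  rw [h.eq j _ (by rw [Complex.add_re]; norm_num; linarith), (D j).LFun_eq hs]

theorem Continued.fin (h : Continued D m F) (j : ι) (z : ℂ) : meromorphicOrderAt (F j) z ≠ ⊤ := by
  refine ((h.mer j).exists_meromorphicOrderAt_ne_top_iff_forall isConnected_univ).1 ⟨⟨3, mem_univ _⟩, ?_⟩
    ⟨z, mem_univ _⟩
  intro h1
  have h1' : meromorphicOrderAt (F j) 3 = ⊤ := h1
  rw [meromorphicOrderAt_eq_top_iff] at h1'
  have h2 : ∀ᶠ s : ℂ in 𝓝[≠] 3, 2 < s.re := by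
    refine Filter.Eventually.filter_mono nhdsWithin_le_nhds ?_
    exact (isOpen_lt continuous_const Complex.continuous_re).mem_nhds (by norm_num)
  obtain ⟨s, h3, h4⟩ := (h1'.and h2).exists
  have h5 := h.eqG j (s - 1 / 2) (by rw [Complex.sub_re]; norm_num; linarith)
  rw [sub_add_cancel, h3] at h5
  exact Complex.exp_ne_zero _ h5.symm

theorem Continued.ordp (h : Continued D m F) (z : ℂ) :
    meromorphicOrderAt (product m F) z = ((∑ j, m j * ord (F j) z : ℤ) : WithTop ℤ) := by
  have h1 : product m F = fun s => ∏ j, (F j ^ m j) s := rfl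
  rw [h1, meromorphicOrderAt_fun_prod fun j _ => (h.mer j z (mem_univ z)).zpow (m j)]
  push_cast
  refine Finset.sum_congr rfl fun j _ => ?_
  rw [meromorphicOrderAt_zpow (h.mer j z (mem_univ z))]
  unfold ord
  rw [WithTop.coe_untop₀_of_ne_top (h.fin j z)]

theorem Continued.mer_product (h : Continued D m F) : MeromorphicOn (product m F) univ := fun z hz => by
  have h1 : MeromorphicAt (∏ j, F j ^ m j) z := MeromorphicAt.prod fun j _ => (h.mer j z hz).zpow (m j)
  have h2 : (∏ j, F j ^ m j) = product m F := by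
    funext s
    rw [Finset.prod_apply]
    rfl
  rwa [h2] at h1

theorem primeSum_eq (D : ι → EDatum) (m : ι → ℤ) :
    primeSum D m = sumUpTo fun p => ∑ j, (m j : ℝ) * (bb (D j).be (p, 0)).re := by
  unfold primeSum
  congr 1
  funext p
  refine Finset.sum_congr rfl fun j _ => ?_
  rw [(D j).bb_zero]

/-- **One-sided bounds** -/
theorem Continued.one (h : Continued D m F) {c δ : ℝ} (hc : 1 / 2 ≤ c) (hδ : 0 < δ)
    (hreal : ∀ x : ℝ, c + 1 / 2 < x → 0 ≤ meromorphicOrderAt (product m F) (x : ℂ))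
    (hw : BoundedBelow c δ (primeSum D m)) {ρ : ℂ} (hρ : c + 1 / 2 < ρ.re) :
    meromorphicOrderAt (product m F) ρ = 0 := by
  rw [h.ordp]
  have key := (ell_fam D).win (m := m) (G := fun j s => F j (s + 1 / 2)) h.real h.merG h.eqG hc
    (fun x hx => by
      have h1 := hreal (x + 1 / 2) (by linarith)
      rw [h.ordp] at h1
      have h2 : (((x + 1 / 2 : ℝ) : ℂ) - 1 / 2) = (x : ℂ) := by
        push_cast
        ring
      calc (0 : ℤ) ≤ ∑ j, m j * ord (F j) ((x + 1 / 2 : ℝ) : ℂ) := by exact_mod_cast h1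
        _ = ∑ j, m j * ord (fun s => F j (s + 1 / 2)) (x : ℂ) := by
          refine Finset.sum_congr rfl fun j _ => ?_
          rw [← ord_shift (F j), h2]) hδ (by rw [← primeSum_eq]; exact hw) (ρ := ρ - 1 / 2)
    (by rw [Complex.sub_re]; norm_num; linarith)
  have h1 : ∑ j, m j * ord (F j) ρ = 0 := by
    rw [← key]
    exact Finset.sum_congr rfl fun j _ => by rw [ord_shift]
  rw [h1]
  rfl

/-- **Two-sided bounds** -/
theorem Continued.two (h : Continued D m F) {c δ : ℝ} (hc : 1 / 2 ≤ c) (hδ : 0 < δ) (hδ1 : δ ≤ 1)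
    (hw : Bounded c δ (primeSum D m)) {ρ : ℂ} (hρ : c + 1 / 2 < ρ.re) :
    meromorphicOrderAt (product m F) ρ = 0 := by
  rw [h.ordp]
  have key := (ell_fam D).win_two (m := m) (G := fun j s => F j (s + 1 / 2)) h.real h.merG h.eqG hc hδ hδ1
    (by rw [← primeSum_eq]; exact hw) (ρ := ρ - 1 / 2) (by rw [Complex.sub_re]; norm_num; linarith)
  have h1 : ∑ j, m j * ord (F j) ρ = 0 := by
    rw [← key]
    exact Finset.sum_congr rfl fun j _ => by rw [ord_shift]
  rw [h1]
  rfl

end Pool.Agent.Q12.VB
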