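import Mathlib
import Pool.Agent.Q12.VB.Gen

/-! Zeros and poles of a local continuation, and the means of the boundary values. -/

set_option autoImplicit false

open Complex MeasureTheory Set Filter Topology

namespace Pool.Agent.Q12.VB

/-- the size of a meromorphic function near a point, from the right -/
theorem size_of_order {F : ℂ → ℂ} {x : ℂ} (hF : MeromorphicAt F x) {m : ℤ} (hm : meromorphicOrderAt F x = m) :
    ∃ a b : ℝ, 0 < a ∧ 0 < b ∧ ∀ᶠ h : ℝ in 𝓝[>] 0, a * h ^ m ≤ ‖F (x + h)‖ ∧ ‖F (x + h)‖ ≤ b * h ^ m := by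
  obtain ⟨g, hg, hg0, hev⟩ := (meromorphicOrderAt_eq_int_iff hF).1 hm
  have hx : Tendsto (fun h : ℝ => x + (h : ℂ)) (𝓝[>] 0) (𝓝[≠] x) := by
    rw [tendsto_nhdsWithin_iff]
    constructor
    · have h4 : Continuous fun h : ℝ => (x + h : ℂ) := by fun_prop
      have h5 := h4.tendsto 0
      rw [Complex.ofReal_zero, add_zero] at h5
      exact h5.mono_left nhdsWithin_le_nhds
    · filter_upwards [self_mem_nhdsWithin] with h hh
      have hh0 : (0 : ℝ) < h := hh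
      intro h6
      have h7 : (h : ℂ) = 0 := by simpa using h6
      exact hh0.ne' (by exact_mod_cast h7)
  have h1 := hx.eventually hev
  have hgc : Tendsto (fun h : ℝ => ‖g (x + h)‖) (𝓝[>] 0) (𝓝 ‖g x‖) :=
    (hg.continuousAt.norm.tendsto).comp (hx.mono_right nhdsWithin_le_nhds)
  have hgp : 0 < ‖g x‖ := norm_pos_iff.2 hg0
  have h2 := hgc.eventually (lt_mem_nhds (show ‖g x‖ / 2 < ‖g x‖ by linarith))
  have h3 := hgc.eventually (gt_mem_nhds (show ‖g x‖ < 2 * ‖g x‖ by linarith))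
  refine ⟨‖g x‖ / 2, 2 * ‖g x‖, by positivity, by positivity, ?_⟩
  filter_upwards [h1, h2, h3, self_mem_nhdsWithin] with h g1 g2 g3 hh
  have hh0 : (0 : ℝ) < h := hh
  have e1 : ‖F (x + h)‖ = h ^ m * ‖g (x + h)‖ := by
    rw [g1, norm_smul, norm_zpow]
    congr 2
    rw [add_sub_cancel_left, Complex.norm_real, Real.norm_of_nonneg hh0.le]
  have hp : 0 < h ^ m := zpow_pos hh0 m
  rw [e1]
  constructor <;> nlinarith

variable {L : ℂ → ℂ} {w M : ℝ} {b : Pool.Agent.TH339.MP.PP → ℂ}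

/-- one function as a family -/
abbrev Fam1 (L : ℂ → ℂ) (w M : ℝ) (b : Pool.Agent.TH339.MP.PP → ℂ) : Prop :=
  Fam (ι := Unit) (fun _ => L) (fun _ => w) (fun _ => M) fun _ => b

/-- **No pole, no zero: boundedness of the means.** -/
theorem bdd_iff (hL : Fam1 L w M b) {c : ℝ} (hc : c ≠ 0) (hcM : |c| * M < 1) {τ : ℝ} {F : ℂ → ℂ}
    (hF : MeromorphicAt F (ept w τ)) (hev : ∀ᶠ h : ℝ in 𝓝[>] 0, F (ept w τ + h) = L (ept w τ + h)) {m : ℤ}
    (hm : meromorphicOrderAt F (ept w τ) = m) :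
    (0 ≤ c * m) ↔ ∃ C : ℝ, ∀ᶠ h : ℝ in 𝓝[>] 0, (∫ u in (τ - h / 2)..(τ + h / 2), ‖lb b u‖ ^ c) / h ≤ C := by
  obtain ⟨a, a', ha, ha', hsize⟩ := size_of_order hF hm
  have hA : 0 < 1 - |c| * M := by linarith
  have key : ∀ h : ℝ, 0 < h → h ≤ 1 / 2 →
      (1000 / (1 - |c| * M))⁻¹ * ‖L (ept w τ + h)‖ ^ c ≤ (∫ u in (τ - h / 2)..(τ + h / 2), ‖lb b u‖ ^ c) / h ∧
        (∫ u in (τ - h / 2)..(τ + h / 2), ‖lb b u‖ ^ c) / h ≤ 1000 / (1 - |c| * M) * ‖L (ept w τ + h)‖ ^ c := by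
    intro h hh hh2
    obtain ⟨-, i2, i3⟩ := hL.harnack {()} (fun _ => c) (by simpa using hcM) hh hh2 τ
    simp only [Finset.prod_singleton, Finset.sum_singleton] at i2 i3
    constructor
    · rw [le_div_iff₀ hh, inv_div]
      refine le_trans (le_of_eq ?_) i2
      ring
    · rw [div_le_iff₀ hh]
      refine i3.trans (le_of_eq ?_)
      ring
  have h5 : ∀ᶠ h : ℝ in 𝓝[>] 0, h ≤ 1 / 2 :=
    (eventually_le_nhds (by norm_num : (0 : ℝ) < 1 / 2)).filter_mono nhdsWithin_le_nhds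
  -- the power of the size
  have hpow : ∃ p q : ℝ, 0 < p ∧ 0 < q ∧ ∀ᶠ h : ℝ in 𝓝[>] 0, p * h ^ (c * m) ≤ ‖L (ept w τ + h)‖ ^ c ∧
      ‖L (ept w τ + h)‖ ^ c ≤ q * h ^ (c * m) := by
    have hz : ∀ h : ℝ, 0 < h → (h ^ m) ^ c = h ^ (c * m) := fun h hh => by
      rw [← Real.rpow_intCast, ← Real.rpow_mul hh.le, mul_comm]
    rcases lt_or_gt_of_ne hc with hc0 | hc0
    · refine ⟨a' ^ c, a ^ c, Real.rpow_pos_of_pos ha' c, Real.rpow_pos_of_pos ha c, ?_⟩
      filter_upwards [hsize, hev, self_mem_nhdsWithin] with h g1 g2 hh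
      have hh0 : (0 : ℝ) < h := hh
      have hp : 0 < h ^ m := zpow_pos hh0 m
      rw [g2] at g1
      have hLp : 0 < ‖L (ept w τ + h)‖ := lt_of_lt_of_le (by positivity) g1.1
      rw [← hz h hh0, ← Real.mul_rpow ha'.le hp.le, ← Real.mul_rpow ha.le hp.le]
      exact ⟨Real.rpow_le_rpow_of_nonpos hLp g1.2 hc0.le, Real.rpow_le_rpow_of_nonpos (by positivity) g1.1 hc0.le⟩
    · refine ⟨a ^ c, a' ^ c, Real.rpow_pos_of_pos ha c, Real.rpow_pos_of_pos ha' c, ?_⟩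
      filter_upwards [hsize, hev, self_mem_nhdsWithin] with h g1 g2 hh
      have hh0 : (0 : ℝ) < h := hh
      have hp : 0 < h ^ m := zpow_pos hh0 m
      rw [g2] at g1
      rw [← hz h hh0, ← Real.mul_rpow ha'.le hp.le, ← Real.mul_rpow ha.le hp.le]
      exact ⟨Real.rpow_le_rpow (by positivity) g1.1 hc0.le, Real.rpow_le_rpow (norm_nonneg _) g1.2 hc0.le⟩
  obtain ⟨p, q, hp, hq, hpq⟩ := hpow
  constructor
  · intro h0
    refine ⟨1000 / (1 - |c| * M) * q, ?_⟩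
    filter_upwards [hpq, h5, self_mem_nhdsWithin] with h g1 g2 hh
    have hh0 : (0 : ℝ) < h := hh
    refine (key h hh0 g2).2.trans (mul_le_mul_of_nonneg_left ?_ (by positivity))
    refine g1.2.trans (mul_le_of_le_one_right hq.le ?_)
    exact Real.rpow_le_one hh0.le (by linarith) h0
  · rintro ⟨C, hC⟩
    by_contra h0
    push Not at h0
    have h1 : Tendsto (fun h : ℝ => h ^ (c * m)) (𝓝[>] 0) atTop := tendsto_rpow_neg_nhdsGT_zero h0
    have h2 : Tendsto (fun h : ℝ => (1000 / (1 - |c| * M))⁻¹ * (p * h ^ (c * m))) (𝓝[>] 0) atTop :=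
      (h1.const_mul_atTop hp).const_mul_atTop (by positivity)
    obtain ⟨h, g1, g2, g3, g4, g5⟩ := ((h2.eventually_gt_atTop C).and (hpq.and (h5.and
      (hC.and self_mem_nhdsWithin)))).exists
    have hh0 : (0 : ℝ) < h := g5
    have g6 := (key h hh0 g3).1
    have g7 : (1000 / (1 - |c| * M))⁻¹ * (p * h ^ (c * m)) ≤ (1000 / (1 - |c| * M))⁻¹ * ‖L (ept w τ + h)‖ ^ c :=
      mul_le_mul_of_nonneg_left g2.1 (by positivity)
    linarith

end Pool.Agent.Q12.VB
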