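import Mathlib
import Pool.Agent.Q12.VB.Gen
import Pool.Agent.TH958.BV.Defs

/-! The `L`-functions of varieties over number fields as a family. -/

set_option autoImplicit false

open Complex MeasureTheory Set Filter Topology NumberField IsDedekindDomain
open Pool.Agent.TH339.MP (PP FF bb norm_bb hasProd_L nm two_le_nm)
open Pool.Agent.TH958.BV (IsFrobenius)

namespace Pool.Agent.Q12.VB

/-- A variety `X` of dimension `d` over a number field `K`, a degree `i`, a set `S` of primes of `K`, the `N`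
eigenvalues `α_v` of Frobenius on `H^i(X)` at the primes `v ∉ S`, and a twist: a function `c` on the primes of `K` with
`|c| ≤ 1`, for example `c = 1` or a character. -/
structure VDatum where
  K : Type
  [field : Field K]
  [numberField : NumberField K]
  n : ℕ
  X : Set (MvPolynomial (Fin n) (𝓞 K))
  d : ℕ
  i : ℕ
  N : ℕ
  S : Set (HeightOneSpectrum (𝓞 K))
  α : HeightOneSpectrum (𝓞 K) → Fin N → ℂ
  frobenius : ∀ v, v ∉ S → IsFrobenius X d i v (α v)
  c : HeightOneSpectrum (𝓞 K) → ℂ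
  norm_c : ∀ v, ‖c v‖ ≤ 1

attribute [instance] VDatum.field VDatum.numberField

namespace VDatum

variable (D : VDatum)

open Classical in
/-- `L_S(H^i(X) ⊗ c, s)`, the product over the primes `v ∉ S` of `K` of the Euler factors
`∏_j (1 - c(v) α_{v,j} Nv^{-s})⁻¹`. -/
noncomputable def LFun (s : ℂ) : ℂ :=
  ∏' v : HeightOneSpectrum (𝓞 D.K), if v ∈ D.S then 1 else
    ∏ j, (1 - D.c v * D.α v j * (Ideal.absNorm v.asIdeal : ℂ) ^ (-s))⁻¹

/-- the degree of the Euler product over `ℚ`: `N [K : ℚ]` -/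
noncomputable def deg : ℝ := (Module.finrank ℚ D.K : ℝ) * D.N

open Classical in
/-- the normalised eigenvalues -/
noncomputable def be (v : HeightOneSpectrum (𝓞 D.K)) (j : Fin D.N) : ℂ :=
  if v ∈ D.S then 0 else D.c v * (D.α v j / (((nm v : ℝ) ^ ((D.i : ℝ) / 2) : ℝ) : ℂ))

theorem nm_pos (v : HeightOneSpectrum (𝓞 D.K)) : 0 < nm v := by
  have := two_le_nm v
  omega

theorem be_norm (v : HeightOneSpectrum (𝓞 D.K)) (j : Fin D.N) : ‖D.be v j‖ ≤ 1 := by
  classical
  unfold be
  split_ifs with h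
  · simp
  · have h0 : 0 < (nm v : ℝ) ^ ((D.i : ℝ) / 2) := by
      have := D.nm_pos v
      positivity
    obtain ⟨β, h1, h2, h3⟩ := D.frobenius v h
    have h4 : ‖D.α v j‖ = (nm v : ℝ) ^ ((D.i : ℝ) / 2) := by
      refine h2 D.i (D.α v j) ?_
      rw [h1]
      exact Multiset.mem_map_of_mem _ (Finset.mem_univ_val j)
    rw [norm_mul, norm_div, h4, Complex.norm_real, Real.norm_of_nonneg h0.le, div_self h0.ne', mul_one]
    exact D.norm_c v

theorem LFun_eq {s : ℂ} (hs : 1 < s.re) : D.LFun (s + D.i / 2) = cexp (FF (bb D.be) s) := by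
  classical
  have h1 := hasProd_L D.be_norm hs
  rw [← h1.tprod_eq]
  unfold LFun
  refine tprod_congr fun v => ?_
  by_cases hv : v ∈ D.S
  · rw [if_pos hv]
    symm
    refine Finset.prod_eq_one fun j _ => ?_
    unfold be
    rw [if_pos hv]
    simp
  · rw [if_neg hv]
    refine Finset.prod_congr rfl fun j _ => ?_
    unfold be
    rw [if_neg hv]
    have hn0 : ((nm v : ℕ) : ℂ) ≠ 0 := by
      have := D.nm_pos v
      exact_mod_cast this.ne'
    have e1 : ((((nm v : ℝ) ^ ((D.i : ℝ) / 2) : ℝ)) : ℂ) = ((nm v : ℕ) : ℂ) ^ ((D.i : ℂ) / 2) := by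
      rw [Complex.ofReal_cpow (Nat.cast_nonneg _)]
      push_cast
      rfl
    have e2 : ((nm v : ℕ) : ℂ) ^ (-(s + D.i / 2)) =
        ((nm v : ℕ) : ℂ) ^ (-s) / ((nm v : ℕ) : ℂ) ^ ((D.i : ℂ) / 2) := by
      rw [neg_add, Complex.cpow_add _ _ hn0, Complex.cpow_neg _ ((D.i : ℂ) / 2), ← div_eq_mul_inv]
    have e3 : (Ideal.absNorm v.asIdeal : ℂ) = ((nm v : ℕ) : ℂ) := rfl
    rw [e1, e3, e2]
    ring

end VDatum

/-- **The family.** -/
theorem var_fam {ι : Type*} (D : ι → VDatum) :
    Fam (fun j => (D j).LFun) (fun j => ((D j).i : ℝ) / 2) (fun j => (D j).deg) (fun j => bb (D j).be) where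
  hb := fun j x => norm_bb (D j).be_norm x
  hL := fun j s hs => by
    have h1 := (D j).LFun_eq (s := s - ((((D j).i : ℝ) / 2 : ℝ) : ℂ)) (by
      rw [Complex.sub_re, Complex.ofReal_re]
      linarith)
    rw [← h1]
    congr 1
    push_cast
    ring

end Pool.Agent.Q12.VB
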